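import Pool.Agent.T6.H9.PA.Mom
import Pool.Agent.T6.H9.NA.Loc
import Pool.Agent.T6.H9.HY.Sqf

/-!
# The moments of the character sums of random polynomials

Owner helper9.
-/

set_option autoImplicit false
set_option linter.unusedSectionVars false
set_option linter.style.haveILetI false
set_option linter.unusedVariables false

open Finset Polynomial

namespace Pool.Agent.T6.H9.PA

open Pool.Agent.T6.H9.QM Pool.Agent.T6.H9.HY Pool.Agent.T6.H9.NA

section gen

lemma rmean_pi {σ : Type*} [Fintype σ] {α : σ → Type*} [∀ i, Finite (α i)]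
    (φ : ∀ i, α i → ℝ) : rmean (fun u : ∀ i, α i => ∏ i, φ i (u i)) = ∏ i, rmean (φ i) := by
  classical
  haveI : ∀ i, Fintype (α i) := fun i => Fintype.ofFinite _
  rw [rmean_eq, Fintype.card_pi]
  have h1 : ∀ i, rmean (φ i) = (∑ a, φ i a) / (Fintype.card (α i) : ℝ) := fun i => rmean_eq _
  rw [Finset.prod_congr rfl fun i _ => h1 i, Finset.prod_div_distrib, Finset.prod_univ_sum,
    Fintype.piFinset_univ]
  push_cast
  rfl

lemma rmean_equiv {α β : Type*} [Finite α] (e : α ≃ β) (f : β → ℝ) :
    rmean (fun a => f (e a)) = rmean f := by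
  haveI := Fintype.ofFinite α
  haveI := Fintype.ofEquiv α e
  rw [rmean_eq, rmean_eq, Fintype.card_congr e]
  congr 1
  exact Fintype.sum_equiv e _ _ fun a => rfl

lemma rmean_abs_le {α : Type*} [Finite α] [Nonempty α] {g : α → ℝ} {c : ℝ}
    (h : ∀ t, |g t| ≤ c) : |rmean g| ≤ c := by
  rw [abs_le]
  constructor
  · have h1 := rmean_le (g := fun t => -g t) (c := c) fun t => by
      have := (abs_le.1 (h t)).1
      linarith
    have h2 := rmean_const_mul (-1) g
    simp only [neg_mul, one_mul] at h2
    rw [h2] at h1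
    linarith
  · exact rmean_le fun t => (abs_le.1 (h t)).2

end gen

section

variable {F : Type} [Field F] [Fintype F] [DecidableEq F]

/-- the probability of a non-zero value -/
noncomputable def th (F : Type) [Fintype F] : ℝ := 1 - 1 / (Fintype.card F : ℝ)

lemma th_nonneg : 0 ≤ th F := by
  unfold th
  have hc := card_pos' (F := F)
  have h2 : 1 / (Fintype.card F : ℝ) ≤ 1 := by
    rw [div_le_one (by linarith)]
    exact hc
  linarith

lemma th_le : th F ≤ 1 := by
  unfold th
  have hc := card_pos' (F := F)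
  have h2 : 0 < 1 / (Fintype.card F : ℝ) := by positivity
  linarith

lemma chi_cases (a : F) : (a = 0 ∧ chi a = 0) ∨ (a ≠ 0 ∧ (chi a = 1 ∨ chi a = -1)) := by
  by_cases ha : a = 0
  · left
    refine ⟨ha, ?_⟩
    unfold chi
    rw [ha, quadraticChar_zero]
    simp
  · right
    refine ⟨ha, ?_⟩
    unfold chi
    rcases quadraticChar_dichotomy ha with h | h
    · left; rw [h]; simp
    · right; rw [h]; simp

lemma chi_moment (hF : ringChar F ≠ 2) (b : ℕ) : rmean (fun u : F => chi u ^ b) = em (th F) b := by
  have hc := card_pos' (F := F)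
  unfold em
  split_ifs with h0 he
  · subst h0
    simp only [pow_zero]
    exact rmean_const 1
  · have h1 : ∀ u : F, chi u ^ b = 1 - if u = 0 then 1 else 0 := by
      intro u
      rcases chi_cases u with ⟨h, h'⟩ | ⟨h, h' | h'⟩
      · rw [h', zero_pow h0, if_pos h]; ring
      · rw [h', one_pow, if_neg h]; ring
      · rw [h', he.neg_one_pow, if_neg h]; ring
    rw [rmean_eq, Finset.sum_congr rfl fun u _ => h1 u, Finset.sum_sub_distrib]
    simp only [Finset.sum_const, Finset.card_univ, nsmul_eq_mul, mul_one, Finset.sum_ite_eq',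
      Finset.mem_univ, if_true]
    unfold th
    field_simp
  · have ho : Odd b := Nat.not_even_iff_odd.1 he
    have h1 : ∀ u : F, chi u ^ b = chi u := by
      intro u
      rcases chi_cases u with ⟨h, h'⟩ | ⟨h, h' | h'⟩
      · rw [h', zero_pow h0]
      · rw [h', one_pow]
      · rw [h', ho.neg_one_pow]
    rw [rmean_eq, Finset.sum_congr rfl fun u _ => h1 u, chi_sum hF, zero_div]

/-- the moments of a sum of independent values -/
lemma model_fin (hF : ringChar F ≠ 2) (r : ℕ) : ∀ j : ℕ,
    rmean (fun u : Fin r → F => (∑ i, chi (u i)) ^ j) = gm (th F) r j := by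
  induction r with
  | zero =>
    intro j
    have h1 : (fun u : Fin 0 → F => (∑ i, chi (u i)) ^ j) = fun _ => (0 : ℝ) ^ j := by
      funext u
      simp
    rw [h1, rmean_const, gm]
    split_ifs with h
    · rw [h, pow_zero]
    · rw [zero_pow h]
  | succ r ih =>
    intro j
    rw [gm, ← rmean_equiv (Fin.consEquiv fun _ => F)
      (fun u : Fin (r + 1) → F => (∑ i, chi (u i)) ^ j)]
    have h1 : (fun a : F × (Fin r → F) => (∑ i, chi ((Fin.consEquiv fun _ => F) a i)) ^ j) =
        fun a => ∑ b ∈ range (j + 1), (j.choose b : ℝ) *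
          (chi a.1 ^ b * (∑ i, chi (a.2 i)) ^ (j - b)) := by
      funext a
      rw [Fin.sum_univ_succ]
      have e1 : chi ((Fin.consEquiv fun _ => F) a 0) = chi a.1 := rfl
      have e2 : ∀ i : Fin r, chi ((Fin.consEquiv fun _ => F) a i.succ) = chi (a.2 i) := fun i => rfl
      rw [e1, Finset.sum_congr rfl fun i _ => e2 i, add_pow]
      refine Finset.sum_congr rfl fun b _ => ?_
      ring
    rw [h1, rmean_sum]
    refine Finset.sum_congr rfl fun b _ => ?_
    rw [rmean_const_mul, rmean_prod (fun u : F => chi u ^ b)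
      (fun w : Fin r → F => (∑ i, chi (w i)) ^ (j - b)), chi_moment hF, ih]
    ring

lemma model (hF : ringChar F ≠ 2) {R : Type} [Fintype R] (j : ℕ) :
    rmean (fun u : R → F => (∑ i, chi (u i)) ^ j) = gm (th F) (Fintype.card R) j := by
  classical
  rw [← model_fin hF (Fintype.card R) j]
  set e : Fin (Fintype.card R) ≃ R := (Fintype.equivFin R).symm with he
  rw [← rmean_equiv (Equiv.arrowCongr e (Equiv.refl F))
    (fun u : R → F => (∑ i, chi (u i)) ^ j)]
  congr 1
  funext u
  congr 1
  refine (Fintype.sum_equiv e _ _ fun i => ?_).symm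
  simp [Equiv.arrowCongr]

/-- evaluation at the points of a finite set -/
noncomputable def ev (n : ℕ) (S : Finset F) : (Fin n → F) →+ (S → F) where
  toFun a x := (lowP n a).eval x.1
  map_zero' := by
    funext x
    simp
  map_add' a b := by
    funext x
    simp

lemma ev_surj {n : ℕ} {S : Finset F} (hS : S.card ≤ n) : Function.Surjective (ev n S) := by
  intro u
  set r : F → F := fun x => if h : x ∈ S then u ⟨x, h⟩ else 0 with hr
  have hdeg : (Lagrange.interpolate S id r).degree < n := by
    have h1 := Lagrange.degree_interpolate_lt (s := S) (v := id) r (Set.injOn_id _)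
    exact h1.trans_le (by exact_mod_cast hS)
  refine ⟨fun i => (Lagrange.interpolate S id r).coeff i, ?_⟩
  funext x
  change (lowP n fun i : Fin n => (Lagrange.interpolate S id r).coeff i).eval x.1 = u x
  rw [lowP_coeff n hdeg]
  have h2 := Lagrange.eval_interpolate_at_node (s := S) (v := id) r (Set.injOn_id _) x.2
  rw [id] at h2
  rw [h2, hr]
  simp

/-- the mean of a product of functions of the values at few points -/
lemma mean_prod {n : ℕ} {S : Finset F} (hS : S.card ≤ n) (φ : F → F → ℝ) :
    rmean (fun a : Fin n → F => ∏ x ∈ S, φ x ((mkP n a).eval x)) = ∏ x ∈ S, rmean (φ x) := by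
  classical
  have h1 : (fun a : Fin n → F => ∏ x ∈ S, φ x ((mkP n a).eval x)) = fun a =>
      (fun u : S → F => ∏ x, φ x.1 (x.1 ^ n + u x)) (ev n S a) := by
    funext a
    rw [← Finset.prod_coe_sort]
    refine Finset.prod_congr rfl fun x _ => ?_
    congr 1
    change (X ^ n + lowP n a).eval x.1 = x.1 ^ n + (lowP n a).eval x.1
    simp
  rw [h1, rmean_comp (ev n S) (ev_surj hS) (fun u : S → F => ∏ x, φ x.1 (x.1 ^ n + u x)),
    rmean_pi (fun (x : S) (w : F) => φ x.1 (x.1 ^ n + w)), ← Finset.prod_coe_sort S]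
  refine Finset.prod_congr rfl fun x _ => ?_
  exact rmean_equiv (Equiv.addLeft (x.1 ^ n)) (φ x.1)

/-- the character sum of a polynomial -/
noncomputable def cs (f : F[X]) : ℝ := ∑ x : F, chi (f.eval x)

/-- **The moments of the character sums** up to the degree agree with those of a sum of independent
values. -/
lemma cs_moment (hF : ringChar F ≠ 2) {n j : ℕ} (hj : j ≤ n) :
    rmean (fun a : Fin n → F => cs (mkP n a) ^ j) = gm (th F) (Fintype.card F) j := by
  classical
  rw [← model hF (R := F) j]
  unfold cs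
  simp only [Finset.sum_pow_eq_sum_piAntidiag]
  rw [rmean_sum, rmean_sum]
  refine Finset.sum_congr rfl fun k hk => ?_
  rw [rmean_const_mul, rmean_const_mul]
  congr 1
  set S : Finset F := univ.filter fun x => k x ≠ 0 with hS
  have hcard : S.card ≤ n := by
    refine le_trans ?_ hj
    have h1 : ∑ x, k x = j := by
      have := (Finset.mem_piAntidiag.1 hk).1
      simpa using this
    calc S.card = ∑ x ∈ S, 1 := by simp
      _ ≤ ∑ x ∈ S, k x := Finset.sum_le_sum fun x hx => by
          have := (Finset.mem_filter.1 hx).2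
          omega
      _ ≤ ∑ x, k x := Finset.sum_le_sum_of_subset (Finset.filter_subset _ _)
      _ = j := h1
  have h2 : (fun a : Fin n → F => ∏ x, chi ((mkP n a).eval x) ^ k x) =
      fun a => ∏ x ∈ S, (fun (x : F) (w : F) => chi w ^ k x) x ((mkP n a).eval x) := by
    funext a
    symm
    refine Finset.prod_subset (Finset.filter_subset _ _) fun x _ hx => ?_
    have hx0 : k x = 0 := by
      by_contra h
      exact hx (Finset.mem_filter.2 ⟨Finset.mem_univ _, h⟩)
    simp [hx0]
  rw [h2, rmean_pi (fun (x : F) (w : F) => chi w ^ k x)]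
  refine (mean_prod hcard (fun (x : F) (w : F) => chi w ^ k x)).trans ?_
  refine Finset.prod_subset (Finset.filter_subset _ _) fun x _ hx => ?_
  have hx0 : k x = 0 := by
    by_contra h
    exact hx (Finset.mem_filter.2 ⟨Finset.mem_univ _, h⟩)
  simp only [hx0, pow_zero]
  exact rmean_const 1

/-- the number of perfect matchings -/
noncomputable def mu (j : ℕ) : ℝ := if Even j then (Nat.doubleFactorial (j - 1) : ℝ) else 0

/-- **The normalised moments.** -/
lemma cs_moment_est (j : ℕ) : ∃ C : ℝ, 0 ≤ C ∧ ∀ (F : Type) [Field F] [Fintype F] [DecidableEq F],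
    ringChar F ≠ 2 → ∀ n : ℕ, j ≤ n →
    |rmean (fun a : Fin n → F => (-cs (mkP n a) / √(Fintype.card F : ℝ)) ^ j) - mu j| ≤
      C / (Fintype.card F : ℝ) := by
  rcases Nat.even_or_odd j with he | ho
  · obtain ⟨k, hk⟩ := he
    have hk2 : j = 2 * k := by omega
    obtain ⟨C, hC0, hC⟩ := gm_even k
    refine ⟨C * 2 ^ (k - 1) + (Nat.doubleFactorial (2 * k - 1) : ℝ) * k, by positivity, ?_⟩
    intro F _ _ _ hF n hj
    have hc := card_pos' (F := F)
    set q : ℝ := (Fintype.card F : ℝ) with hq
    have hq0 : 0 < q := by linarith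
    have h1 : (fun a : Fin n → F => (-cs (mkP n a) / √q) ^ j) =
        fun a => (1 / q ^ k) * cs (mkP n a) ^ j := by
      funext a
      rw [hk2, div_pow, pow_mul, neg_sq, pow_mul (√q), Real.sq_sqrt hq0.le, ← pow_mul]
      ring
    rw [h1, rmean_const_mul, cs_moment hF hj, hk2]
    have h2 := hC (th F) th_nonneg th_le (Fintype.card F)
    have hmu : mu (2 * k) = (Nat.doubleFactorial (2 * k - 1) : ℝ) := by
      unfold mu
      rw [if_pos (even_two_mul k)]
    rw [hmu]
    rcases Nat.eq_zero_or_pos k with rfl | hkpos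
    · simp only [Nat.mul_zero, gm_zero_right, pow_zero]
      simp
      positivity
    set D : ℝ := (Nat.doubleFactorial (2 * k - 1) : ℝ) with hD
    have hD0 : 0 ≤ D := Nat.cast_nonneg _
    have h3 : C * (q + 1) ^ (k - 1) ≤ C * 2 ^ (k - 1) * q ^ (k - 1) := by
      rw [mul_assoc, ← mul_pow]
      exact mul_le_mul_of_nonneg_left (pow_le_pow_left₀ (by linarith) (by linarith) _) hC0
    have h4 : |th F ^ k - 1| ≤ k / q := by
      have h5 : 1 - (k : ℝ) * (1 / q) ≤ (1 - 1 / q) ^ k := by
        have h6 := one_add_mul_le_pow (a := -(1 / q)) (by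
          have : 1 / q ≤ 1 := by
            rw [div_le_one hq0]
            exact hc
          linarith) k
        calc 1 - (k : ℝ) * (1 / q) = 1 + (k : ℝ) * (-(1 / q)) := by ring
          _ ≤ (1 + -(1 / q)) ^ k := h6
          _ = _ := by ring
      have h6 : th F ^ k ≤ 1 := pow_le_one₀ th_nonneg th_le
      rw [abs_le]
      have h7 : th F ^ k = (1 - 1 / q) ^ k := rfl
      constructor
      · rw [h7]
        have : (k : ℝ) * (1 / q) = k / q := by ring
        linarith
      · have : 0 ≤ (k : ℝ) / q := by positivity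
        linarith
    have e1 : 1 / q ^ k * gm (th F) (Fintype.card F) (2 * k) - D =
        1 / q ^ k * (gm (th F) (Fintype.card F) (2 * k) - D * th F ^ k * q ^ k) +
        D * (th F ^ k - 1) := by
      field_simp
      ring
    rw [e1]
    refine (abs_add_le _ _).trans ?_
    have h5 : |1 / q ^ k * (gm (th F) (Fintype.card F) (2 * k) - D * th F ^ k * q ^ k)| ≤
        C * 2 ^ (k - 1) / q := by
      rw [abs_mul, abs_of_nonneg (by positivity : (0 : ℝ) ≤ 1 / q ^ k)]
      refine (mul_le_mul_of_nonneg_left (h2.trans h3) (by positivity)).trans (le_of_eq ?_)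
      have e2 : q ^ k = q ^ (k - 1) * q := by
        rw [← pow_succ]
        congr 1
        omega
      rw [e2]
      field_simp
    have h6 : |D * (th F ^ k - 1)| ≤ D * k / q := by
      rw [abs_mul, abs_of_nonneg hD0]
      refine (mul_le_mul_of_nonneg_left h4 hD0).trans (le_of_eq ?_)
      ring
    refine (add_le_add h5 h6).trans (le_of_eq ?_)
    ring
  · refine ⟨0, le_rfl, ?_⟩
    intro F _ _ _ hF n hj
    have h1 : (fun a : Fin n → F => (-cs (mkP n a) / √(Fintype.card F : ℝ)) ^ j) =
        fun a => (-1 / √(Fintype.card F : ℝ)) ^ j * cs (mkP n a) ^ j := by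
      funext a
      rw [← mul_pow]
      congr 1
      ring
    rw [h1, rmean_const_mul, cs_moment hF hj, gm_odd _ _ _ ho]
    unfold mu
    rw [if_neg (Nat.not_even_iff_odd.2 ho)]
    simp

/-- Weil's bound -/
lemma cs_abs (hF : ringChar F ≠ 2) {f : F[X]} (hf : Odd f.natDegree) :
    |cs f| ≤ (f.natDegree - 1 : ℝ) * √(Fintype.card F : ℝ) := by
  have h1 := Pool.Agent.H126T.trace_bound hF f hf 1 one_ne_zero 1 one_ne_zero
  have h2 : cs f = ((Pool.Agent.H126T.affPts F f 1 1 : ℤ) : ℝ) - (Fintype.card F : ℝ) := by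
    rw [Pool.Agent.H126T.affPts_eq f 1 1 F (by rw [pow_one])]
    have e1 : {P : F × F // algebraMap F F 1 * P.2 ^ 2 = aeval P.1 f} =
        {P : F × F // P.2 ^ 2 = f.eval P.1} := by
      congr 1
      funext P
      rw [map_one, one_mul, aeval_def, Algebra.algebraMap_self, eval₂_id]
    rw [e1]
    have h3 := card_sol hF (fun x => f.eval x)
    rw [Int.cast_natCast, h3, Finset.sum_add_distrib, Finset.sum_const, Finset.card_univ,
      nsmul_eq_mul]
    unfold cs
    ring
  rw [pow_one, pow_one] at h1
  push_cast at h1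
  rw [Nat.card_eq_fintype_card] at h1
  rw [h2]
  have e3 : (Fintype.card F : ℝ) + 1 - ((Pool.Agent.H126T.affPts F f 1 1 : ℝ) + 1) =
      -(((Pool.Agent.H126T.affPts F f 1 1 : ℤ) : ℝ) - (Fintype.card F : ℝ)) := by
    push_cast
    ring
  rw [e3, abs_neg] at h1
  exact h1

end

end Pool.Agent.T6.H9.PA
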