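import Mathlib

/-!
# Definitions for the average of the powers of the traces of Frobenius

Owner helper9.
-/

set_option autoImplicit false

open NumberField IsDedekindDomain Polynomial

namespace Pool.Agent.T6.H9.PowAvg

variable {K : Type} [Field K] [NumberField K]

/-- The indices of the coefficients of a family of monic polynomials `f_i` of degree
`2 g_i + 1`. -/
abbrev Idx {σ : Type} (g : σ → ℕ) : Type := Σ i : σ, Fin (2 * g i + 1)

/-- The monic polynomial `f_i = x^(2 g_i + 1) + ∑_k c(i, k) x^k`. -/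
noncomputable def poly {σ : Type} {g : σ → ℕ} (c : Idx g → 𝓞 K) (i : σ) : (𝓞 K)[X] :=
  X ^ (2 * g i + 1) + ∑ k : Fin (2 * g i + 1), C (c ⟨i, k⟩) * X ^ (k : ℕ)

/-- The trace of Frobenius at `v` on `H^1` of the curve `y² = f(x)`, `f` of odd degree:
`q - #{(x, y) : y² = f(x)}`, `q = N v`, over the residue field. -/
noncomputable def trace (f : (𝓞 K)[X]) (v : HeightOneSpectrum (𝓞 K)) : ℝ :=
  (Ideal.absNorm v.asIdeal : ℝ) - (Nat.card {p : (𝓞 K ⧸ v.asIdeal) × (𝓞 K ⧸ v.asIdeal) //
    p.2 ^ 2 = (f.map (Ideal.Quotient.mk v.asIdeal)).eval p.1} : ℝ)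

/-- The primes of norm at most `X` which do not divide `2` and at which all the curves
`y² = f_i(x)` have good reduction: `f_i` modulo `v` is squarefree. -/
def goodPrimes {σ : Type} (f : σ → (𝓞 K)[X]) (X : ℕ) : Set (HeightOneSpectrum (𝓞 K)) :=
  {v | Ideal.absNorm v.asIdeal ≤ X ∧ (2 : 𝓞 K) ∉ v.asIdeal ∧
    ∀ i, Squarefree ((f i).map (Ideal.Quotient.mk v.asIdeal))}

/-- The number of perfect matchings of a set with `j` elements: `(j - 1)!! = 1 · 3 ⋯ (j - 1)` if
`j` is even, and `0` if `j` is odd. -/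
def matchings (j : ℕ) : ℕ := if Even j then Nat.doubleFactorial (j - 1) else 0

/-- The families of coefficients whose coordinates with respect to the integral basis `ω` are
bounded by `B`. -/
def Box {ι κ : Type} [Fintype ι] (ω : Module.Basis ι ℤ (𝓞 K)) (B : κ × ι → ℕ) :
    Set (κ → 𝓞 K) :=
  {c | ∀ i j, |ω.repr (c i) j| ≤ (B (i, j) : ℤ)}

end Pool.Agent.T6.H9.PowAvg
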