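import Pool.Agent.T6.H9.PA.Defs
import Pool.Agent.T6.H9.PA.Loc
import Pool.Agent.T6.H9.NA.Main
import Pool.Agent.T6.H9.QM.Wrap

/-!
# The average of the powers of the traces of Frobenius of hyperelliptic curves

Owner helper9.
-/

set_option autoImplicit false
set_option linter.unusedSectionVars false
set_option linter.style.haveILetI false
set_option linter.unusedVariables false

open Finset NumberField IsDedekindDomain Polynomial

namespace Pool.Agent.T6.H9.PA

open Pool.Agent.T6.H9.MV Pool.Agent.T6.H9.HY Pool.Agent.T6.H9.QM Pool.Agent.T6.H9.NA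
  Pool.Agent.T6.H9.PowAvg

section prod

lemma prod_close {σ : Type*} (s : Finset σ) {x y : σ → ℝ} {M ε : ℝ} (hM : 1 ≤ M)
    (hε : 0 ≤ ε) (hx : ∀ i ∈ s, |x i| ≤ M) (hy : ∀ i ∈ s, |y i| ≤ M)
    (h : ∀ i ∈ s, |x i - y i| ≤ ε) :
    |∏ i ∈ s, x i - ∏ i ∈ s, y i| ≤ s.card * M ^ s.card * ε := by
  classical
  induction s using Finset.induction_on with
  | empty => simp
  | insert i s hi ih =>
    rw [Finset.prod_insert hi, Finset.prod_insert hi, Finset.card_insert_of_notMem hi]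
    have hx' : ∀ j ∈ s, |x j| ≤ M := fun j hj => hx j (Finset.mem_insert_of_mem hj)
    have hy' : ∀ j ∈ s, |y j| ≤ M := fun j hj => hy j (Finset.mem_insert_of_mem hj)
    have ih' := ih hx' hy' fun j hj => h j (Finset.mem_insert_of_mem hj)
    have h1 : |∏ j ∈ s, x j| ≤ M ^ s.card := by
      rw [Finset.abs_prod]
      calc ∏ j ∈ s, |x j| ≤ ∏ _j ∈ s, M := Finset.prod_le_prod (fun j _ => abs_nonneg _) hx'
        _ = M ^ s.card := by rw [Finset.prod_const]
    have e1 : x i * ∏ j ∈ s, x j - y i * ∏ j ∈ s, y j =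
        (x i - y i) * ∏ j ∈ s, x j + y i * (∏ j ∈ s, x j - ∏ j ∈ s, y j) := by ring
    rw [e1]
    refine (abs_add_le _ _).trans ?_
    rw [abs_mul, abs_mul]
    have h2 : |x i - y i| * |∏ j ∈ s, x j| ≤ ε * M ^ s.card :=
      mul_le_mul (h i (Finset.mem_insert_self _ _)) h1 (abs_nonneg _) hε
    have h3 : |y i| * |∏ j ∈ s, x j - ∏ j ∈ s, y j| ≤ M * (s.card * M ^ s.card * ε) :=
      mul_le_mul (hy i (Finset.mem_insert_self _ _)) ih' (abs_nonneg _) (by linarith)
    have h4 : ε * M ^ s.card ≤ M ^ (s.card + 1) * ε := by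
      rw [pow_succ]
      have h5 : (0 : ℝ) ≤ M ^ s.card * ε := by positivity
      nlinarith
    push_cast
    calc _ ≤ M ^ (s.card + 1) * ε + M * (s.card * M ^ s.card * ε) := add_le_add (h2.trans h4) h3
      _ = _ := by rw [pow_succ]; ring

end prod

section local_

variable {F : Type} [Field F] [Fintype F] [DecidableEq F] {σ : Type} [Fintype σ]
  {g : σ → ℕ}

/-- the product of the powers of the normalised character sums -/
noncomputable def pr (j : σ → ℕ) (c : Idx g → F) : ℝ :=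
  ∏ i, (-cs (mkP (2 * g i + 1) fun k => c ⟨i, k⟩) / √(Fintype.card F : ℝ)) ^ j i

/-- the main term -/
noncomputable def mm (j : σ → ℕ) : ℝ := ∏ i, mu (j i)

lemma one_fac_abs (hF : ringChar F ≠ 2) {G : ℕ} (n : ℕ) (hn : n ≤ G) (a : Fin (2 * n + 1) → F) (j : ℕ) :
    |(-cs (mkP (2 * n + 1) a) / √(Fintype.card F : ℝ)) ^ j| ≤ (2 * G + 1) ^ j := by
  have hc := NA.card_pos' (F := F)
  have hs : 0 < √(Fintype.card F : ℝ) := Real.sqrt_pos.2 (by linarith)
  rw [abs_pow]
  refine pow_le_pow_left₀ (abs_nonneg _) ?_ _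
  rw [abs_div, abs_neg, abs_of_pos hs, div_le_iff₀ hs]
  have h1 := cs_abs hF (f := mkP (2 * n + 1) a) (by rw [mkP_natDegree]; exact ⟨n, rfl⟩)
  rw [mkP_natDegree] at h1
  refine h1.trans (mul_le_mul_of_nonneg_right ?_ hs.le)
  push_cast
  have : (n : ℝ) ≤ G := by exact_mod_cast hn
  linarith

/-- a bound for the degrees -/
noncomputable def Gm (g : σ → ℕ) : ℕ := ∑ i, g i

lemma le_Gm (g : σ → ℕ) (i : σ) : g i ≤ Gm g := Finset.single_le_sum (fun _ _ => Nat.zero_le _) (Finset.mem_univ i)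

lemma mu_nonneg (j : ℕ) : 0 ≤ mu j := by
  unfold mu
  split_ifs
  · exact Nat.cast_nonneg _
  · exact le_rfl

/-- the bound for the local functions -/
noncomputable def Bd (g j : σ → ℕ) : ℝ := ∏ i, ((2 * (Gm g : ℝ) + 1) ^ j i) + mm j

lemma mm_nonneg (j : σ → ℕ) : 0 ≤ mm j := Finset.prod_nonneg fun i _ => mu_nonneg _

lemma pr_abs (hF : ringChar F ≠ 2) (j : σ → ℕ) (c : Idx g → F) : |pr j c - mm j| ≤ Bd g j := by
  refine (abs_sub _ _).trans ?_
  unfold Bd
  rw [abs_of_nonneg (mm_nonneg j)]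
  refine add_le_add_left ?_ _
  unfold pr
  rw [Finset.abs_prod]
  exact Finset.prod_le_prod (fun i _ => abs_nonneg _) fun i _ =>
    one_fac_abs hF (g i) (le_Gm g i) _ _

lemma Bd_nonneg (g j : σ → ℕ) : 0 ≤ Bd g j :=
  add_nonneg (Finset.prod_nonneg fun i _ => by positivity) (mm_nonneg j)

/-- independence of the polynomials -/
lemma rmean_idx {φ : ∀ i, (Fin (2 * g i + 1) → F) → ℝ} :
    rmean (fun c : Idx g → F => ∏ i, φ i fun k => c ⟨i, k⟩) = ∏ i, rmean (φ i) := by
  classical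
  rw [← rmean_pi φ]
  exact rmean_equiv (Equiv.piCurry fun (i : σ) (_ : Fin (2 * g i + 1)) => F)
    (fun u : ∀ i, Fin (2 * g i + 1) → F => ∏ i, φ i (u i))

lemma pr_mean (g j : σ → ℕ) (hj : ∀ i, j i ≤ 2 * g i + 1) : ∃ C : ℝ, 0 ≤ C ∧
    ∀ (F : Type) [Field F] [Fintype F] [DecidableEq F], ringChar F ≠ 2 →
    |rmean (fun c : Idx g → F => pr j c) - mm j| ≤ C / (Fintype.card F : ℝ) := by
  classical
  choose C hC0 hC using cs_moment_est
  set M : ℝ := 1 + ∑ i, ((2 * (Gm g : ℝ) + 1) ^ j i + mu (j i)) with hM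
  have hM0 : ∀ i ∈ (univ : Finset σ), 0 ≤ (2 * (Gm g : ℝ) + 1) ^ j i + mu (j i) := fun i _ =>
    add_nonneg (by positivity) (mu_nonneg _)
  have hMi : ∀ i, (2 * (Gm g : ℝ) + 1) ^ j i + mu (j i) ≤ M := fun i => by
    have := Finset.single_le_sum hM0 (Finset.mem_univ i)
    rw [hM]
    linarith
  have hM1 : 1 ≤ M := by
    have := Finset.sum_nonneg hM0
    rw [hM]
    linarith
  set E : ℝ := ∑ i, C (j i) with hE
  have hE0 : 0 ≤ E := Finset.sum_nonneg fun i _ => hC0 _
  refine ⟨(Fintype.card σ : ℝ) * M ^ (Fintype.card σ) * E, by positivity, ?_⟩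
  intro F _ _ _ hF
  have hc := NA.card_pos' (F := F)
  have hq : (0 : ℝ) < Fintype.card F := by linarith
  have h1 : rmean (fun c : Idx g → F => pr j c) = ∏ i, rmean (fun a : Fin (2 * g i + 1) → F =>
      (-cs (mkP (2 * g i + 1) a) / √(Fintype.card F : ℝ)) ^ j i) :=
    rmean_idx (φ := fun i a => (-cs (mkP (2 * g i + 1) a) / √(Fintype.card F : ℝ)) ^ j i)
  rw [h1]
  unfold mm
  have h2 := prod_close (univ : Finset σ) (x := fun i => rmean (fun a : Fin (2 * g i + 1) → F =>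
      (-cs (mkP (2 * g i + 1) a) / √(Fintype.card F : ℝ)) ^ j i)) (y := fun i => mu (j i))
    (M := M) (ε := E / (Fintype.card F : ℝ)) hM1 (by positivity)
    (fun i _ => by
      refine (rmean_abs_le fun a => one_fac_abs hF (g i) (le_Gm g i) a (j i)).trans ?_
      have := hMi i
      have := mu_nonneg (j i)
      linarith)
    (fun i _ => by
      rw [abs_of_nonneg (mu_nonneg _)]
      have := hMi i
      have : (0 : ℝ) ≤ (2 * (Gm g : ℝ) + 1) ^ j i := by positivity
      linarith)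
    (fun i _ => by
      refine (hC (j i) F hF (2 * g i + 1) (hj i)).trans ?_
      refine div_le_div_of_nonneg_right ?_ hq.le
      exact Finset.single_le_sum (f := fun i => C (j i)) (fun i _ => hC0 _) (Finset.mem_univ i))
  refine h2.trans (le_of_eq ?_)
  rw [Finset.card_univ]
  ring

open Classical in
/-- the local function before centering -/
noncomputable def Wz (j : σ → ℕ) (c : Idx g → F) : ℝ :=
  if ∀ i, Squarefree (mkP (2 * g i + 1) fun k => c ⟨i, k⟩) then pr j c - mm j else 0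

lemma Wz_abs (hF : ringChar F ≠ 2) (j : σ → ℕ) (c : Idx g → F) : |Wz j c| ≤ Bd g j := by
  unfold Wz
  split_ifs
  · exact pr_abs hF j c
  · rw [abs_zero]
    exact Bd_nonneg g j

lemma nsq_mean (i : σ) :
    rmean (fun c : Idx g → F => nsq F (2 * g i + 1) fun k => c ⟨i, k⟩) ≤
      2 / (Fintype.card F : ℝ) := by
  classical
  set φ : ∀ l, (Fin (2 * g l + 1) → F) → ℝ := fun l a =>
    if l = i then nsq F (2 * g l + 1) a else 1 with hφ
  have h1 := rmean_idx (φ := φ)
  have h2 : (fun c : Idx g → F => ∏ l, φ l fun k => c ⟨l, k⟩) =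
      fun c => nsq F (2 * g i + 1) fun k => c ⟨i, k⟩ := by
    funext c
    rw [Fintype.prod_eq_single i]
    · simp [hφ]
    · intro l hl
      simp [hφ, hl]
  rw [h2] at h1
  rw [h1, Fintype.prod_eq_single i]
  · have h3 : rmean (φ i) = rmean (fun a : Fin (2 * g i + 1) → F => nsq F (2 * g i + 1) a) := by
      congr 1
      funext a
      simp [hφ]
    rw [h3, rmean_eq]
    have hc : (0 : ℝ) < (Fintype.card (Fin (2 * g i + 1) → F) : ℝ) := by
      exact_mod_cast Fintype.card_pos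
    rw [div_le_iff₀ hc]
    exact nsq_sum (by omega)
  · intro l hl
    have h3 : φ l = fun _ => 1 := by
      funext a
      simp [hφ, hl]
    rw [h3]
    exact rmean_const 1

lemma Wz_mean (g j : σ → ℕ) (hj : ∀ i, j i ≤ 2 * g i + 1) : ∃ C : ℝ, 0 ≤ C ∧
    ∀ (F : Type) [Field F] [Fintype F] [DecidableEq F], ringChar F ≠ 2 →
    |rmean (fun c : Idx g → F => Wz j c)| ≤ C / (Fintype.card F : ℝ) := by
  classical
  obtain ⟨C, hC0, hC⟩ := pr_mean g j hj
  refine ⟨C + Bd g j * (2 * Fintype.card σ), add_nonneg hC0 (mul_nonneg (Bd_nonneg g j)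
    (by positivity)), ?_⟩
  intro F _ _ _ hF
  have hc := NA.card_pos' (F := F)
  have hq : (0 : ℝ) < Fintype.card F := by linarith
  have h1 := hC F hF
  have h2 : rmean (fun c : Idx g → F => pr j c - mm j) =
      rmean (fun c : Idx g → F => pr j c) - mm j := by
    rw [rmean_sub (fun c : Idx g → F => pr j c) fun _ => mm j, rmean_const]
  have h3 : |rmean (fun c : Idx g → F => (pr j c - mm j) - Wz j c)| ≤
      Bd g j * (2 * Fintype.card σ) / (Fintype.card F : ℝ) := by
    have hpt : ∀ c : Idx g → F, |(pr j c - mm j) - Wz j c| ≤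
        Bd g j * ∑ i, nsq F (2 * g i + 1) fun k => c ⟨i, k⟩ := by
      intro c
      unfold Wz
      split_ifs with h
      · rw [sub_self, abs_zero]
        exact mul_nonneg (Bd_nonneg g j) (Finset.sum_nonneg fun i _ => nsq_nonneg _ _)
      · rw [sub_zero]
        refine (pr_abs hF j c).trans ?_
        push Not at h
        obtain ⟨i, hi⟩ := h
        have h4 : 1 ≤ ∑ i, nsq F (2 * g i + 1) fun k => c ⟨i, k⟩ := by
          refine le_trans ?_ (Finset.single_le_sum
            (f := fun i => nsq F (2 * g i + 1) fun k => c ⟨i, k⟩)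
            (fun i _ => nsq_nonneg _ _) (Finset.mem_univ i))
          unfold nsq
          rw [if_neg hi]
        exact le_mul_of_one_le_right (Bd_nonneg g j) h4
    have h5 : rmean (fun c : Idx g → F => Bd g j * ∑ i, nsq F (2 * g i + 1) fun k => c ⟨i, k⟩) ≤
        Bd g j * (2 * Fintype.card σ) / (Fintype.card F : ℝ) := by
      rw [rmean_const_mul, rmean_sum]
      have h6 : ∑ i : σ, rmean (fun c : Idx g → F => nsq F (2 * g i + 1) fun k => c ⟨i, k⟩) ≤
          ∑ _i : σ, 2 / (Fintype.card F : ℝ) := Finset.sum_le_sum fun i _ => nsq_mean i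
      rw [Finset.sum_const, Finset.card_univ, nsmul_eq_mul] at h6
      refine (mul_le_mul_of_nonneg_left h6 (Bd_nonneg g j)).trans (le_of_eq ?_)
      ring
    refine le_trans ?_ h5
    rw [rmean_eq, rmean_eq, abs_div, Nat.abs_cast]
    refine div_le_div_of_nonneg_right ?_ (Nat.cast_nonneg _)
    exact (Finset.abs_sum_le_sum_abs _ _).trans (Finset.sum_le_sum fun c _ => hpt c)
  have h4 : rmean (fun c : Idx g → F => (pr j c - mm j) - Wz j c) =
      (rmean (fun c : Idx g → F => pr j c) - mm j) - rmean (fun c : Idx g → F => Wz j c) := by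
    rw [rmean_sub (fun c : Idx g → F => pr j c - mm j) (fun c => Wz j c), h2]
  rw [h4] at h3
  have h5 : rmean (fun c : Idx g → F => Wz j c) = (rmean (fun c : Idx g → F => pr j c) - mm j) -
      ((rmean (fun c : Idx g → F => pr j c) - mm j) - rmean (fun c : Idx g → F => Wz j c)) := by
    ring
  rw [h5]
  refine (abs_sub _ _).trans ((add_le_add h1 h3).trans (le_of_eq ?_))
  ring

end local_

section global

variable {K : Type} [Field K] [NumberField K] {σ : Type} [Fintype σ] {g : σ → ℕ}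

lemma map_poly' (c : Idx g → 𝓞 K) (i : σ) (v : HeightOneSpectrum (𝓞 K)) :
    (PowAvg.poly c i).map (Ideal.Quotient.mk v.asIdeal) =
      mkP (2 * g i + 1) fun k => redG v _ c ⟨i, k⟩ := by
  unfold PowAvg.poly mkP
  rw [lowP_apply, Polynomial.map_add, Polynomial.map_pow, Polynomial.map_X, Polynomial.map_sum]
  congr 1
  refine Finset.sum_congr rfl fun k _ => ?_
  rw [Polynomial.map_mul, Polynomial.map_pow, Polynomial.map_X, Polynomial.map_C]
  rfl

lemma trace_eq (c : Idx g → 𝓞 K) (i : σ) {v : HeightOneSpectrum (𝓞 K)}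
    (h : (2 : 𝓞 K) ∉ v.asIdeal) :
    trace (PowAvg.poly c i) v = -cs (mkP (2 * g i + 1) fun k => redG v _ c ⟨i, k⟩) := by
  classical
  unfold trace
  rw [map_poly']
  have h1 := card_sol (F := kv v) (char_ne_two h)
    (fun x => (mkP (2 * g i + 1) fun k => redG v _ c ⟨i, k⟩).eval x)
  rw [h1, Finset.sum_add_distrib, Finset.sum_const, Finset.card_univ, nsmul_eq_mul, mul_one,
    card_kv']
  unfold cs
  change (qv v : ℝ) - _ = _
  ring

open Classical in
/-- the local functions at all places -/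
noncomputable def Wg (j : σ → ℕ) (b : HeightOneSpectrum (𝓞 K) → ℝ)
    (v : HeightOneSpectrum (𝓞 K)) (a : Idx g → kv v) : ℝ :=
  if (2 : 𝓞 K) ∈ v.asIdeal then 0 else
    b v * (Wz j a - rmean (fun a : Idx g → kv v => Wz j a))

lemma Wg_mean (j : σ → ℕ) (b : HeightOneSpectrum (𝓞 K) → ℝ) (v : HeightOneSpectrum (𝓞 K)) :
    rmean (Wg (g := g) j b v) = 0 := by
  classical
  unfold Wg
  split_ifs with h
  · rw [rmean_eq]
    simp
  · rw [rmean_const_mul, rmean_sub (fun a : Idx g → kv v => Wz j a)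
      (fun _ => rmean (fun a : Idx g → kv v => Wz j a)), rmean_const, sub_self, mul_zero]

lemma Wg_abs (j : σ → ℕ) {A : ℝ} {b : HeightOneSpectrum (𝓞 K) → ℝ} (hb : ∀ v, |b v| ≤ A)
    (v : HeightOneSpectrum (𝓞 K)) (a : Idx g → kv v) : |Wg j b v a| ≤ A * (2 * Bd g j) := by
  classical
  have hA : 0 ≤ A := (abs_nonneg _).trans (hb v)
  unfold Wg
  split_ifs with h
  · rw [abs_zero]
    exact mul_nonneg hA (mul_nonneg zero_le_two (Bd_nonneg g j))
  · rw [abs_mul]
    refine mul_le_mul (hb v) ?_ (abs_nonneg _) hA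
    refine (abs_sub _ _).trans ?_
    have h1 := Wz_abs (char_ne_two h) j a
    have h2 := rmean_abs_le fun a : Idx g → kv v => Wz_abs (char_ne_two h) j a
    linarith

lemma matchings_eq (n : ℕ) : (matchings n : ℝ) = mu n := by
  unfold matchings mu
  split_ifs <;> simp

open Classical in
lemma finsum_good (f : σ → (𝓞 K)[X]) (X : ℕ) (F : HeightOneSpectrum (𝓞 K) → ℝ) :
    ∑ᶠ v ∈ goodPrimes f X, F v = ∑ v ∈ plE K X, if (2 : 𝓞 K) ∈ v.asIdeal then 0 else
      if ∀ i, Squarefree ((f i).map (Ideal.Quotient.mk v.asIdeal)) then F v else 0 := by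
  rw [finsum_mem_eq_sum_of_inter_support_eq (t := (plE K X).filter
    fun v => (2 : 𝓞 K) ∉ v.asIdeal ∧ ∀ i, Squarefree ((f i).map (Ideal.Quotient.mk v.asIdeal)))]
  · rw [Finset.sum_filter]
    refine Finset.sum_congr rfl fun v _ => ?_
    by_cases h : (2 : 𝓞 K) ∈ v.asIdeal
    · rw [if_neg (fun h' => h'.1 h), if_pos h]
    · rw [if_neg h]
      by_cases h2 : ∀ i, Squarefree ((f i).map (Ideal.Quotient.mk v.asIdeal))
      · rw [if_pos ⟨h, h2⟩, if_pos h2]
      · rw [if_neg (fun h' => h2 h'.2), if_neg h2]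
  · congr 1
    ext v
    simp only [Finset.coe_filter, mem_plE, goodPrimes, Set.mem_ofPred_eq]

variable {ι : Type} [Fintype ι]

/-- **The almost-all theorem for the powers of the traces.** -/
theorem main (ω : Module.Basis ι ℤ (𝓞 K)) (j : σ → ℕ) (hj : ∀ i, j i ≤ 2 * g i + 1)
    {δ : ℝ} (hδ : 0 < δ) {A : ℝ} (b : HeightOneSpectrum (𝓞 K) → ℝ) (hb : ∀ v, |b v| ≤ A) :
    ∃ L : ℝ, 0 < L ∧ ∀ (N : ℕ) (B : Idx g × ι → ℕ), (∀ l, N ≤ B l) → ∀ X₀ : ℝ, 1 ≤ X₀ →
      ({c : Idx g → 𝓞 K | c ∈ Box ω B ∧ ∃ X : ℕ, X₀ ≤ X ∧ X ^ 4 ≤ N ∧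
        (X : ℝ) ^ (1 / 2 + δ) < |∑ᶠ v ∈ goodPrimes (fun i => PowAvg.poly c i) X, b v *
          (∏ i, (trace (PowAvg.poly c i) v / √(Ideal.absNorm v.asIdeal : ℝ)) ^ j i -
            ∏ i, (matchings (j i) : ℝ)) *
          Real.log (Ideal.absNorm v.asIdeal)|}.ncard : ℝ) ≤
        L * X₀ ^ (-δ) * ((Box ω B).ncard : ℝ) := by
  classical
  obtain ⟨v₀, -⟩ := Pool.Agent.T6.H9.HY.exists_large (K := K) 0
  have hA : 0 ≤ A := (abs_nonneg _).trans (hb v₀)
  obtain ⟨Cm, hCm0, hCm⟩ := Wz_mean g j hj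
  obtain ⟨Cl, hCl0, hCl⟩ := sum_log_div (K := K) (ε := δ / 2) (by positivity)
  have hS0 : 0 ≤ A * (2 * Bd g j) := mul_nonneg hA (mul_nonneg zero_le_two (Bd_nonneg g j))
  obtain ⟨C, hC0, hC⟩ := almost_all_set (κ := Idx g) ω (e := 1 / 2) (β := 0)
    (c₁ := (A * (2 * Bd g j)) ^ 2) (c₂ := A * (2 * Bd g j)) (δ := δ) (C' := A * Cm * Cl)
    (by norm_num) le_rfl (sq_nonneg _) hS0 hδ (fun v => Wg (g := g) j b v)
    (Wg_mean j b)
    (fun v => by
      have h1 : (2 * (1 / 2 : ℝ) - 1) = 0 := by norm_num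
      rw [h1, Real.rpow_zero, mul_one]
      refine rmean_le fun a => ?_
      rw [← sq_abs]
      exact pow_le_pow_left₀ (abs_nonneg _) (Wg_abs j hb v a) 2)
    (fun v a => by
      rw [Real.rpow_zero, mul_one]
      exact Wg_abs j hb v a)
    (fun c X => ∑ᶠ v ∈ goodPrimes (fun i => PowAvg.poly c i) X, b v *
          (∏ i, (trace (PowAvg.poly c i) v / √(Ideal.absNorm v.asIdeal : ℝ)) ^ j i -
            ∏ i, (matchings (j i) : ℝ)) *
          Real.log (Ideal.absNorm v.asIdeal))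
    (fun c X hX => by
      rw [finsum_good, ← Finset.sum_sub_distrib]
      have h1 : ∀ v ∈ plE K X, |(if (2 : 𝓞 K) ∈ v.asIdeal then 0 else
          if ∀ i, Squarefree ((PowAvg.poly c i).map (Ideal.Quotient.mk v.asIdeal)) then b v *
            (∏ i, (trace (PowAvg.poly c i) v / √(Ideal.absNorm v.asIdeal : ℝ)) ^ j i -
              ∏ i, (matchings (j i) : ℝ)) * Real.log (Ideal.absNorm v.asIdeal) else 0) -
          Real.log (qv v) * Wg (g := g) j b v (redG v _ c)| ≤
            A * Cm * (Real.log (qv v) / (qv v : ℝ)) := by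
        intro v _
        have hq1 := one_le_qvR v
        have hq : (0 : ℝ) < qv v := by linarith
        have hl : 0 ≤ Real.log (qv v) := Real.log_nonneg hq1
        unfold Wg
        split_ifs with h h2
        · rw [mul_zero, sub_zero, abs_zero]
          positivity
        · have h3 : Wz j (redG v _ c) =
              ∏ i, (trace (PowAvg.poly c i) v / √(Ideal.absNorm v.asIdeal : ℝ)) ^ j i -
                ∏ i, (matchings (j i) : ℝ) := by
            unfold Wz pr mm
            rw [if_pos (fun i => by rw [← map_poly']; exact h2 i)]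
            congr 1
            · refine Finset.prod_congr rfl fun i _ => ?_
              rw [trace_eq c i h, card_kv']
            · exact Finset.prod_congr rfl fun i _ => (matchings_eq _).symm
          rw [← h3]
          have h4 := hCm (kv v) (char_ne_two h)
          rw [card_kv'] at h4
          have e1 : b v * Wz j (redG v _ c) * Real.log (qv v) - Real.log (qv v) *
              (b v * (Wz j (redG v _ c) - rmean (fun a : Idx g → kv v => Wz j a))) =
              b v * rmean (fun a : Idx g → kv v => Wz j a) * Real.log (qv v) := by ring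
          change |b v * Wz j (redG v _ c) * Real.log (qv v) - Real.log (qv v) *
              (b v * (Wz j (redG v _ c) - rmean (fun a : Idx g → kv v => Wz j a)))| ≤ _
          rw [e1, abs_mul, abs_mul, abs_of_nonneg hl]
          calc |b v| * |rmean (fun a : Idx g → kv v => Wz j a)| * Real.log (qv v) ≤
              A * (Cm / (qv v : ℝ)) * Real.log (qv v) :=
                mul_le_mul_of_nonneg_right (mul_le_mul (hb v) h4 (abs_nonneg _) hA) hl
            _ = _ := by ring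
        · have h3 : Wz j (redG v _ c) = 0 := by
            unfold Wz
            rw [if_neg]
            intro h4
            apply h2
            intro i
            rw [map_poly']
            exact h4 i
          rw [h3]
          have h4 := hCm (kv v) (char_ne_two h)
          rw [card_kv'] at h4
          have e1 : 0 - Real.log (qv v) *
              (b v * (0 - rmean (fun a : Idx g → kv v => Wz j a))) =
              b v * rmean (fun a : Idx g → kv v => Wz j a) * Real.log (qv v) := by ring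
          rw [e1, abs_mul, abs_mul, abs_of_nonneg hl]
          calc |b v| * |rmean (fun a : Idx g → kv v => Wz j a)| * Real.log (qv v) ≤
              A * (Cm / (qv v : ℝ)) * Real.log (qv v) :=
                mul_le_mul_of_nonneg_right (mul_le_mul (hb v) h4 (abs_nonneg _) hA) hl
            _ = _ := by ring
      refine (Finset.abs_sum_le_sum_abs _ _).trans ((Finset.sum_le_sum h1).trans ?_)
      rw [← Finset.mul_sum]
      have h2 := hCl X
      have hXr : (1 : ℝ) ≤ X := by exact_mod_cast hX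
      have h3 : (X : ℝ) ^ (δ / 2) ≤ (X : ℝ) ^ (1 / 2 + δ / 2) :=
        Real.rpow_le_rpow_of_exponent_le hXr (by linarith)
      have h4 : 0 ≤ A * Cm := mul_nonneg hA hCm0
      calc A * Cm * ∑ v ∈ plE K X, Real.log (qv v) / (qv v : ℝ) ≤ A * Cm * (Cl * (X : ℝ) ^ (δ / 2)) :=
            mul_le_mul_of_nonneg_left h2 h4
        _ ≤ A * Cm * (Cl * (X : ℝ) ^ (1 / 2 + δ / 2)) :=
            mul_le_mul_of_nonneg_left (mul_le_mul_of_nonneg_left h3 hCl0) h4
        _ = _ := by ring)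
  refine ⟨C, hC0, fun N B hB X₀ hX₀ => ?_⟩
  have h1 := hC N B hB X₀ hX₀
  refine le_trans (le_of_eq ?_) h1
  congr 2
  ext c
  have h2 : ∀ X : ℕ, ((X : ℝ) ^ (2 * (0 : ℝ) + 4) ≤ N ↔ X ^ 4 ≤ N) := by
    intro X
    have h3 : (2 * (0 : ℝ) + 4) = ((4 : ℕ) : ℝ) := by norm_num
    rw [h3, Real.rpow_natCast]
    exact_mod_cast Iff.rfl
  simp only [h2]
  rfl

lemma box_finite {κ : Type} [Finite κ] (ω : Module.Basis ι ℤ (𝓞 K)) (B : κ × ι → ℕ) :
    (Box ω B : Set (κ → 𝓞 K)).Finite := by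
  classical
  haveI := Fintype.ofFinite κ
  have h := boxS_eq ω B (fun _ : κ → 𝓞 K => True)
  simp only [and_true] at h
  have h2 : (Box ω B : Set (κ → 𝓞 K)) = (ptG ω κ) '' {x | x ∈ MV.box B} := h
  rw [h2]
  exact Set.Finite.image _ (MV.box B).finite_toSet

open Classical in
/-- **The almost-all theorem for all exponents at once.** -/
theorem main_all (ω : Module.Basis ι ℤ (𝓞 K)) (g : σ → ℕ) {δ : ℝ} (hδ : 0 < δ) {A : ℝ}
    (b : HeightOneSpectrum (𝓞 K) → ℝ) (hb : ∀ v, |b v| ≤ A) :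
    ∃ L : ℝ, 0 < L ∧ ∀ (N : ℕ) (B : Idx g × ι → ℕ), (∀ l, N ≤ B l) → ∀ X₀ : ℝ, 1 ≤ X₀ →
      ({c : Idx g → 𝓞 K | c ∈ Box ω B ∧ ∃ j : σ → ℕ, (∀ i, j i ≤ 2 * g i + 1) ∧
        ∃ X : ℕ, X₀ ≤ X ∧ X ^ 4 ≤ N ∧
        (X : ℝ) ^ (1 / 2 + δ) < |∑ᶠ v ∈ goodPrimes (fun i => PowAvg.poly c i) X, b v *
          (∏ i, (trace (PowAvg.poly c i) v / √(Ideal.absNorm v.asIdeal : ℝ)) ^ j i -
            ∏ i, (matchings (j i) : ℝ)) *
          Real.log (Ideal.absNorm v.asIdeal)|}.ncard : ℝ) ≤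
        L * X₀ ^ (-δ) * ((Box ω B).ncard : ℝ) := by
  classical
  set J : Finset (σ → ℕ) := Fintype.piFinset fun i => range (2 * g i + 2) with hJ
  have hmem : ∀ j : σ → ℕ, j ∈ J ↔ ∀ i, j i ≤ 2 * g i + 1 := by
    intro j
    rw [hJ, Fintype.mem_piFinset]
    refine forall_congr' fun i => ?_
    rw [Finset.mem_range]
    omega
  have h1 : ∀ j ∈ J, ∃ L : ℝ, 0 < L ∧ ∀ (N : ℕ) (B : Idx g × ι → ℕ), (∀ l, N ≤ B l) →
      ∀ X₀ : ℝ, 1 ≤ X₀ →
      ({c : Idx g → 𝓞 K | c ∈ Box ω B ∧ ∃ X : ℕ, X₀ ≤ X ∧ X ^ 4 ≤ N ∧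
        (X : ℝ) ^ (1 / 2 + δ) < |∑ᶠ v ∈ goodPrimes (fun i => PowAvg.poly c i) X, b v *
          (∏ i, (trace (PowAvg.poly c i) v / √(Ideal.absNorm v.asIdeal : ℝ)) ^ j i -
            ∏ i, (matchings (j i) : ℝ)) *
          Real.log (Ideal.absNorm v.asIdeal)|}.ncard : ℝ) ≤
        L * X₀ ^ (-δ) * ((Box ω B).ncard : ℝ) := fun j hj => main ω j ((hmem j).1 hj) hδ b hb
  choose! L hL0 hL using h1
  have hJne : J.Nonempty := ⟨fun _ => 0, (hmem _).2 fun i => Nat.zero_le _⟩
  refine ⟨∑ j ∈ J, L j, Finset.sum_pos hL0 hJne, fun N B hB X₀ hX₀ => ?_⟩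
  have hfin : (Box ω B : Set (Idx g → 𝓞 K)).Finite := box_finite ω B
  set S : (σ → ℕ) → Set (Idx g → 𝓞 K) := fun j => {c : Idx g → 𝓞 K | c ∈ Box ω B ∧
    ∃ X : ℕ, X₀ ≤ X ∧ X ^ 4 ≤ N ∧
        (X : ℝ) ^ (1 / 2 + δ) < |∑ᶠ v ∈ goodPrimes (fun i => PowAvg.poly c i) X, b v *
          (∏ i, (trace (PowAvg.poly c i) v / √(Ideal.absNorm v.asIdeal : ℝ)) ^ j i -
            ∏ i, (matchings (j i) : ℝ)) *
          Real.log (Ideal.absNorm v.asIdeal)|} with hS
  have hSfin : ∀ j, (S j).Finite := fun j => hfin.subset fun c hc => hc.1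
  have hsub : {c : Idx g → 𝓞 K | c ∈ Box ω B ∧ ∃ j : σ → ℕ, (∀ i, j i ≤ 2 * g i + 1) ∧
        ∃ X : ℕ, X₀ ≤ X ∧ X ^ 4 ≤ N ∧
        (X : ℝ) ^ (1 / 2 + δ) < |∑ᶠ v ∈ goodPrimes (fun i => PowAvg.poly c i) X, b v *
          (∏ i, (trace (PowAvg.poly c i) v / √(Ideal.absNorm v.asIdeal : ℝ)) ^ j i -
            ∏ i, (matchings (j i) : ℝ)) *
          Real.log (Ideal.absNorm v.asIdeal)|} ⊆
      ((J.biUnion fun j => (hSfin j).toFinset : Finset (Idx g → 𝓞 K)) : Set (Idx g → 𝓞 K)) := by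
    rintro c ⟨hc, j, hj, hX⟩
    rw [Finset.mem_coe, Finset.mem_biUnion]
    refine ⟨j, (hmem j).2 hj, ?_⟩
    rw [Set.Finite.mem_toFinset]
    exact ⟨hc, hX⟩
  have h2 := Set.ncard_le_ncard hsub (Finset.finite_toSet _)
  rw [Set.ncard_coe_finset] at h2
  have h3 : ((J.biUnion fun j => (hSfin j).toFinset).card : ℝ) ≤
      ∑ j ∈ J, ((S j).ncard : ℝ) := by
    have h4 := Finset.card_biUnion_le (s := J) (t := fun j => (hSfin j).toFinset)
    have h5 : ∀ j, ((hSfin j).toFinset).card = (S j).ncard := fun j =>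
      (Set.ncard_eq_toFinset_card _ (hSfin j)).symm
    simp only [h5] at h4
    exact_mod_cast h4
  refine (le_trans (by exact_mod_cast h2) h3).trans ?_
  rw [mul_assoc, Finset.sum_mul]
  refine Finset.sum_le_sum fun j hj => ?_
  rw [← mul_assoc]
  exact hL j hj N B hB X₀ hX₀

end global

end Pool.Agent.T6.H9.PA
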