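import Mathlib

/-!
# Moments of sums of independent symmetric variables

Owner helper9.
-/

set_option autoImplicit false
set_option linter.unusedSectionVars false
set_option linter.unusedVariables false

open Finset Nat

namespace Pool.Agent.T6.H9.PA

/-- the moments of a variable which is `1` or `-1` with probability `θ / 2` each, and else `0` -/
noncomputable def em (θ : ℝ) (b : ℕ) : ℝ := if b = 0 then 1 else if Even b then θ else 0

/-- the `j`-th moment of the sum of `r` independent copies -/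
noncomputable def gm (θ : ℝ) : ℕ → ℕ → ℝ
  | 0, j => if j = 0 then 1 else 0
  | r + 1, j => ∑ b ∈ range (j + 1), (j.choose b : ℝ) * em θ b * gm θ r (j - b)

lemma gm_zero_right (θ : ℝ) (r : ℕ) : gm θ r 0 = 1 := by
  induction r with
  | zero => simp [gm]
  | succ r ih =>
    rw [gm]
    simp [em, ih]

lemma gm_odd (θ : ℝ) (r : ℕ) : ∀ j, Odd j → gm θ r j = 0 := by
  induction r with
  | zero =>
    intro j hj
    rw [gm, if_neg]
    rintro rfl
    exact absurd hj (by decide)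
  | succ r ih =>
    intro j hj
    rw [gm]
    refine Finset.sum_eq_zero fun b hb => ?_
    have hbj : b ≤ j := by
      have := Finset.mem_range.1 hb
      omega
    rcases Nat.even_or_odd b with he | ho
    · rw [ih (j - b) (Nat.Odd.sub_even hbj hj he), mul_zero]
    · unfold em
      rw [if_neg (by rintro rfl; exact absurd ho (by decide)), if_neg (Nat.not_even_iff_odd.2 ho)]
      ring

/-- sums over the even numbers up to `2 k` -/
lemma sum_even (k : ℕ) (f : ℕ → ℝ) (hf : ∀ b, Odd b → f b = 0) :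
    ∑ b ∈ range (2 * k + 1), f b = ∑ a ∈ range (k + 1), f (2 * a) := by
  induction k with
  | zero => simp
  | succ k ih =>
    rw [show 2 * (k + 1) + 1 = 2 * k + 1 + 1 + 1 by ring, Finset.sum_range_succ,
      Finset.sum_range_succ, ih, hf (2 * k + 1) ⟨k, rfl⟩, Finset.sum_range_succ _ (k + 1)]
    rw [show 2 * (k + 1) = 2 * k + 1 + 1 by ring]
    ring

lemma gm_succ_even (θ : ℝ) (r k : ℕ) :
    gm θ (r + 1) (2 * k) = gm θ r (2 * k) + ∑ a ∈ range k, ((2 * k).choose (2 * (a + 1)) : ℝ) * θ *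
      gm θ r (2 * (k - (a + 1))) := by
  rw [gm, sum_even k _ fun b hb => ?_, Finset.sum_range_succ']
  · rw [add_comm]
    congr 1
    · simp [em]
    · refine Finset.sum_congr rfl fun a ha => ?_
      have h1 : em θ (2 * (a + 1)) = θ := by
        unfold em
        rw [if_neg (by omega), if_pos (even_two_mul _)]
      rw [h1, ← Nat.mul_sub]
  · unfold em
    rw [if_neg (by rintro rfl; exact absurd hb (by decide)), if_neg (Nat.not_even_iff_odd.2 hb)]
    ring

lemma pow_diff (k r : ℕ) : (k : ℝ) * (r : ℝ) ^ (k - 1) ≤ ((r : ℝ) + 1) ^ k - (r : ℝ) ^ k ∧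
    ((r : ℝ) + 1) ^ k - (r : ℝ) ^ k ≤ (k : ℝ) * ((r : ℝ) + 1) ^ (k - 1) := by
  have h := (Commute.all ((r : ℝ) + 1) (r : ℝ)).geom_sum₂_mul k
  have hr : (0 : ℝ) ≤ r := Nat.cast_nonneg r
  have e : ((r : ℝ) + 1) - (r : ℝ) = 1 := by ring
  rw [e, mul_one] at h
  rw [← h]
  have key : ∀ i ∈ range k, (r : ℝ) ^ (k - 1) ≤ ((r : ℝ) + 1) ^ i * (r : ℝ) ^ (k - 1 - i) ∧
      ((r : ℝ) + 1) ^ i * (r : ℝ) ^ (k - 1 - i) ≤ ((r : ℝ) + 1) ^ (k - 1) := by
    intro i hi
    have hi' := Finset.mem_range.1 hi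
    have hsplit : k - 1 = i + (k - 1 - i) := by omega
    constructor
    · conv_lhs => rw [hsplit, pow_add]
      exact mul_le_mul_of_nonneg_right (pow_le_pow_left₀ hr (by linarith) _) (by positivity)
    · conv_rhs => rw [hsplit, pow_add]
      exact mul_le_mul_of_nonneg_left (pow_le_pow_left₀ hr (by linarith) _) (by positivity)
  constructor
  · calc (k : ℝ) * (r : ℝ) ^ (k - 1) = ∑ _i ∈ range k, (r : ℝ) ^ (k - 1) := by
          rw [Finset.sum_const, Finset.card_range, nsmul_eq_mul]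
      _ ≤ _ := Finset.sum_le_sum fun i hi => (key i hi).1
  · calc _ ≤ ∑ _i ∈ range k, ((r : ℝ) + 1) ^ (k - 1) :=
          Finset.sum_le_sum fun i hi => (key i hi).2
      _ = _ := by rw [Finset.sum_const, Finset.card_range, nsmul_eq_mul]

lemma pow_sum (k : ℕ) (hk : 1 ≤ k) (R : ℕ) :
    |∑ r ∈ range R, (k : ℝ) * (r : ℝ) ^ (k - 1) - (R : ℝ) ^ k| ≤ (k : ℝ) * (R : ℝ) ^ (k - 1) := by
  have h1 : (R : ℝ) ^ k = ∑ r ∈ range R, (((r : ℝ) + 1) ^ k - (r : ℝ) ^ k) := by
    have := Finset.sum_range_sub (fun r : ℕ => (r : ℝ) ^ k) R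
    simp only [Nat.cast_zero] at this
    rw [zero_pow (by omega), sub_zero] at this
    rw [← this]
    push_cast
    rfl
  have h2 : ∑ r ∈ range R, (k : ℝ) * (r : ℝ) ^ (k - 1) ≤ (R : ℝ) ^ k := by
    rw [h1]
    exact Finset.sum_le_sum fun r _ => (pow_diff k r).1
  have h3 : (R : ℝ) ^ k ≤ ∑ r ∈ range R, (k : ℝ) * ((r : ℝ) + 1) ^ (k - 1) := by
    rw [h1]
    exact Finset.sum_le_sum fun r _ => (pow_diff k r).2
  have h4 : ∑ r ∈ range R, (k : ℝ) * ((r : ℝ) + 1) ^ (k - 1) -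
      ∑ r ∈ range R, (k : ℝ) * (r : ℝ) ^ (k - 1) ≤ (k : ℝ) * (R : ℝ) ^ (k - 1) := by
    rw [← Finset.sum_sub_distrib]
    have h5 := Finset.sum_range_sub (fun r : ℕ => (k : ℝ) * (r : ℝ) ^ (k - 1)) R
    simp only [Nat.cast_add, Nat.cast_one, Nat.cast_zero] at h5
    rw [h5]
    have : 0 ≤ (k : ℝ) * (0 : ℝ) ^ (k - 1) := by positivity
    linarith
  rw [abs_le]
  constructor <;> linarith

/-- the asymptotic formula for the even moments -/
lemma gm_even (k : ℕ) : ∃ C : ℝ, 0 ≤ C ∧ ∀ θ : ℝ, 0 ≤ θ → θ ≤ 1 → ∀ r : ℕ,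
    |gm θ r (2 * k) - ((2 * k - 1)‼ : ℝ) * θ ^ k * (r : ℝ) ^ k| ≤ C * ((r : ℝ) + 1) ^ (k - 1) := by
  induction k using Nat.strong_induction_on with
  | _ k ih =>
    rcases Nat.eq_zero_or_pos k with rfl | hk
    · refine ⟨0, le_rfl, fun θ _ _ r => ?_⟩
      rw [Nat.mul_zero, gm_zero_right]
      simp
    rcases Nat.eq_or_lt_of_le hk with h1 | h2
    · -- `k = 1`
      have hk1 : k = 1 := h1.symm
      subst hk1
      refine ⟨0, le_rfl, fun θ _ _ r => ?_⟩
      have h2 : gm θ r (2 * 1) = θ * r := by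
        induction r with
        | zero => simp [gm]
        | succ r ihr =>
          rw [gm_succ_even, ihr, Finset.sum_range_one]
          simp only [Nat.sub_self, Nat.mul_zero, gm_zero_right]
          push_cast
          norm_num
          ring
      rw [h2]
      simp
    · -- `k ≥ 2`
      choose! Cc hC0 hC using ih
      set S : ℝ := ∑ i ∈ range k, (((2 * i - 1)‼ : ℝ) + Cc i) with hS
      have hS0 : ∀ i ∈ range k, 0 ≤ ((2 * i - 1)‼ : ℝ) + Cc i := fun i hi =>
        add_nonneg (Nat.cast_nonneg _) (hC0 i (Finset.mem_range.1 hi))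
      have hSi : ∀ i ∈ range k, ((2 * i - 1)‼ : ℝ) + Cc i ≤ S := fun i hi =>
        Finset.single_le_sum hS0 hi
      have hSn : 0 ≤ S := Finset.sum_nonneg hS0
      have hCle : Cc (k - 1) ≤ S := by
        have h3 := hSi (k - 1) (Finset.mem_range.2 (by omega))
        have h4 : (0 : ℝ) ≤ ((2 * (k - 1) - 1)‼ : ℝ) := Nat.cast_nonneg _
        linarith
      -- the rough bound
      have hrough : ∀ i < k, ∀ θ : ℝ, 0 ≤ θ → θ ≤ 1 → ∀ r : ℕ,
          |gm θ r (2 * i)| ≤ S * ((r : ℝ) + 1) ^ i := by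
        intro i hi θ hθ0 hθ1 r
        have hr : (0 : ℝ) ≤ r := Nat.cast_nonneg r
        have h3 := hC i hi θ hθ0 hθ1 r
        have h4 : |((2 * i - 1)‼ : ℝ) * θ ^ i * (r : ℝ) ^ i| ≤ ((2 * i - 1)‼ : ℝ) * ((r : ℝ) + 1) ^ i := by
          rw [abs_of_nonneg (by positivity), mul_assoc]
          refine mul_le_mul_of_nonneg_left ?_ (Nat.cast_nonneg _)
          calc θ ^ i * (r : ℝ) ^ i ≤ 1 * ((r : ℝ) + 1) ^ i :=
                mul_le_mul (pow_le_one₀ hθ0 hθ1) (pow_le_pow_left₀ hr (by linarith) _)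
                  (by positivity) zero_le_one
            _ = _ := one_mul _
        have h5 : Cc i * ((r : ℝ) + 1) ^ (i - 1) ≤ Cc i * ((r : ℝ) + 1) ^ i :=
          mul_le_mul_of_nonneg_left (pow_le_pow_right₀ (by linarith) (by omega)) (hC0 i hi)
        have h6 := abs_sub_abs_le_abs_sub (gm θ r (2 * i)) (((2 * i - 1)‼ : ℝ) * θ ^ i * (r : ℝ) ^ i)
        have h7 := mul_le_mul_of_nonneg_right (hSi i (Finset.mem_range.2 hi))
          (by positivity : (0 : ℝ) ≤ ((r : ℝ) + 1) ^ i)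
        linarith
      set b : ℝ := (2 : ℝ) ^ (2 * k) with hb
      have hb1 : 1 ≤ b := one_le_pow₀ (by norm_num)
      have hchoose : ∀ i, ((2 * k).choose i : ℝ) ≤ b := by
        intro i
        rw [hb]
        exact_mod_cast Nat.choose_le_two_pow (2 * k) i
      set E : ℝ := b * S + k * (b * S) with hE
      have hE0 : 0 ≤ E := by positivity
      -- the increments
      have hinc : ∀ θ : ℝ, 0 ≤ θ → θ ≤ 1 → ∀ r : ℕ,
          |gm θ (r + 1) (2 * k) - gm θ r (2 * k) -
            ((2 * k - 1)‼ : ℝ) * θ ^ k * (k * (r : ℝ) ^ (k - 1))| ≤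
            E * ((r : ℝ) + 1) ^ (k - 2) := by
        intro θ hθ0 hθ1 r
        have hr : (0 : ℝ) ≤ r := Nat.cast_nonneg r
        obtain ⟨l, hl⟩ : ∃ l, k = l + 1 := ⟨k - 1, by omega⟩
        rw [gm_succ_even, add_sub_cancel_left]
        have hsplit : ∑ a ∈ range k, ((2 * k).choose (2 * (a + 1)) : ℝ) * θ *
            gm θ r (2 * (k - (a + 1))) =
            (∑ a ∈ range l, ((2 * k).choose (2 * (a + 1 + 1)) : ℝ) * θ *
              gm θ r (2 * (k - (a + 1 + 1)))) +
            ((2 * k).choose 2 : ℝ) * θ * gm θ r (2 * (k - 1)) := by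
          rw [hl, Finset.sum_range_succ']
        rw [hsplit]
        have hch : ((2 * k).choose 2 : ℝ) * ((2 * (k - 1) - 1)‼ : ℝ) = k * ((2 * k - 1)‼ : ℝ) := by
          have h3 : (2 * k).choose 2 = k * (2 * k - 1) := by
            rw [Nat.choose_two_right, mul_assoc, Nat.mul_div_cancel_left _ (by norm_num)]
          have h4 : (2 * k - 1)‼ = (2 * k - 1) * (2 * (k - 1) - 1)‼ := by
            obtain ⟨m, hm⟩ : ∃ m, k = m + 2 := ⟨k - 2, by omega⟩
            subst hm
            have e1 : 2 * (m + 2) - 1 = 2 * m + 1 + 2 := by omega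
            have e2 : 2 * (m + 2 - 1) - 1 = 2 * m + 1 := by omega
            rw [e1, e2, Nat.doubleFactorial_add_two]
          rw [h3, h4]
          push_cast
          ring
        have hmain : ((2 * k).choose 2 : ℝ) * θ * (((2 * (k - 1) - 1)‼ : ℝ) * θ ^ (k - 1) *
            (r : ℝ) ^ (k - 1)) = ((2 * k - 1)‼ : ℝ) * θ ^ k * (k * (r : ℝ) ^ (k - 1)) := by
          have e1 : θ ^ k = θ ^ (k - 1) * θ := by
            rw [← pow_succ]
            congr 1
            omega
          rw [e1]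
          linear_combination (θ * θ ^ (k - 1) * (r : ℝ) ^ (k - 1)) * hch
        have h3 := hC (k - 1) (by omega) θ hθ0 hθ1 r
        rw [show k - 1 - 1 = k - 2 by omega] at h3
        have h4 : |((2 * k).choose 2 : ℝ) * θ * gm θ r (2 * (k - 1)) -
            ((2 * k - 1)‼ : ℝ) * θ ^ k * (k * (r : ℝ) ^ (k - 1))| ≤
            b * S * ((r : ℝ) + 1) ^ (k - 2) := by
          rw [← hmain, ← mul_sub, abs_mul, abs_mul, abs_of_nonneg hθ0, Nat.abs_cast]
          have h5 := hchoose 2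
          have h6 : θ * |gm θ r (2 * (k - 1)) - ((2 * (k - 1) - 1)‼ : ℝ) * θ ^ (k - 1) *
              (r : ℝ) ^ (k - 1)| ≤ S * ((r : ℝ) + 1) ^ (k - 2) := by
            calc θ * |gm θ r (2 * (k - 1)) - ((2 * (k - 1) - 1)‼ : ℝ) * θ ^ (k - 1) *
              (r : ℝ) ^ (k - 1)| ≤ 1 * (Cc (k - 1) * ((r : ℝ) + 1) ^ (k - 2)) :=
                mul_le_mul hθ1 h3 (abs_nonneg _) zero_le_one
              _ ≤ _ := by
                rw [one_mul]
                exact mul_le_mul_of_nonneg_right hCle (by positivity)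
          calc _ = ((2 * k).choose 2 : ℝ) * (θ * |gm θ r (2 * (k - 1)) -
                ((2 * (k - 1) - 1)‼ : ℝ) * θ ^ (k - 1) * (r : ℝ) ^ (k - 1)|) := by ring
            _ ≤ b * (S * ((r : ℝ) + 1) ^ (k - 2)) :=
                mul_le_mul h5 h6 (by positivity) (by positivity)
            _ = _ := by ring
        have h5 : |∑ a ∈ range l, ((2 * k).choose (2 * (a + 1 + 1)) : ℝ) * θ *
              gm θ r (2 * (k - (a + 1 + 1)))| ≤ k * (b * S) * ((r : ℝ) + 1) ^ (k - 2) := by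
          refine (Finset.abs_sum_le_sum_abs _ _).trans ?_
          have h6 : ∀ a ∈ range l, |((2 * k).choose (2 * (a + 1 + 1)) : ℝ) * θ *
              gm θ r (2 * (k - (a + 1 + 1)))| ≤ b * S * ((r : ℝ) + 1) ^ (k - 2) := by
            intro a ha
            have ha' := Finset.mem_range.1 ha
            rw [abs_mul, abs_mul, abs_of_nonneg hθ0, Nat.abs_cast, mul_assoc, mul_assoc]
            refine mul_le_mul (hchoose _) ?_ (by positivity) (by positivity)
            have h7 := hrough (k - (a + 1 + 1)) (by omega) θ hθ0 hθ1 r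
            calc θ * |gm θ r (2 * (k - (a + 1 + 1)))| ≤ 1 * (S * ((r : ℝ) + 1) ^ (k - (a + 1 + 1))) :=
                  mul_le_mul hθ1 h7 (abs_nonneg _) zero_le_one
              _ ≤ _ := by
                rw [one_mul]
                exact mul_le_mul_of_nonneg_left (pow_le_pow_right₀ (by linarith) (by omega)) hSn
          refine (Finset.sum_le_sum h6).trans ?_
          rw [Finset.sum_const, Finset.card_range, nsmul_eq_mul]
          have h7 : (l : ℝ) ≤ k := by exact_mod_cast (by omega : l ≤ k)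
          have h8 : 0 ≤ b * S * ((r : ℝ) + 1) ^ (k - 2) := by positivity
          nlinarith
        have e1 : (∑ a ∈ range l, ((2 * k).choose (2 * (a + 1 + 1)) : ℝ) * θ *
              gm θ r (2 * (k - (a + 1 + 1)))) +
            ((2 * k).choose 2 : ℝ) * θ * gm θ r (2 * (k - 1)) -
            ((2 * k - 1)‼ : ℝ) * θ ^ k * (k * (r : ℝ) ^ (k - 1)) =
            (((2 * k).choose 2 : ℝ) * θ * gm θ r (2 * (k - 1)) -
            ((2 * k - 1)‼ : ℝ) * θ ^ k * (k * (r : ℝ) ^ (k - 1))) +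
            ∑ a ∈ range l, ((2 * k).choose (2 * (a + 1 + 1)) : ℝ) * θ *
              gm θ r (2 * (k - (a + 1 + 1))) := by ring
        rw [e1]
        refine (abs_add_le _ _).trans ((add_le_add h4 h5).trans (le_of_eq ?_))
        rw [hE]
        ring
      refine ⟨E + ((2 * k - 1)‼ : ℝ) * k, by positivity, fun θ hθ0 hθ1 R => ?_⟩
      have hR : (0 : ℝ) ≤ R := Nat.cast_nonneg R
      have htel : gm θ R (2 * k) = ∑ r ∈ range R, (gm θ (r + 1) (2 * k) - gm θ r (2 * k)) := by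
        rw [Finset.sum_range_sub (fun r => gm θ r (2 * k)) R, gm, if_neg (by omega), sub_zero]
      have h3 : |gm θ R (2 * k) - ((2 * k - 1)‼ : ℝ) * θ ^ k *
          ∑ r ∈ range R, (k : ℝ) * (r : ℝ) ^ (k - 1)| ≤ E * ((R : ℝ) + 1) ^ (k - 1) := by
        rw [htel, Finset.mul_sum, ← Finset.sum_sub_distrib]
        refine (Finset.abs_sum_le_sum_abs _ _).trans ?_
        refine (Finset.sum_le_sum fun r hr => (hinc θ hθ0 hθ1 r).trans
          (mul_le_mul_of_nonneg_left (pow_le_pow_left₀ (by positivity)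
            (show (r : ℝ) + 1 ≤ R by exact_mod_cast Finset.mem_range.1 hr) _) hE0)).trans ?_
        rw [Finset.sum_const, Finset.card_range, nsmul_eq_mul]
        have e2 : ((R : ℝ) + 1) ^ (k - 1) = ((R : ℝ) + 1) ^ (k - 2) * ((R : ℝ) + 1) := by
          rw [← pow_succ]
          congr 1
          omega
        rw [e2]
        have h4 : (R : ℝ) ^ (k - 2) ≤ ((R : ℝ) + 1) ^ (k - 2) :=
          pow_le_pow_left₀ hR (by linarith) _
        have h5 : (R : ℝ) * (R : ℝ) ^ (k - 2) ≤ ((R : ℝ) + 1) * ((R : ℝ) + 1) ^ (k - 2) :=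
          mul_le_mul (by linarith) h4 (by positivity) (by positivity)
        calc (R : ℝ) * (E * (R : ℝ) ^ (k - 2)) = E * ((R : ℝ) * (R : ℝ) ^ (k - 2)) := by ring
          _ ≤ E * (((R : ℝ) + 1) * ((R : ℝ) + 1) ^ (k - 2)) := mul_le_mul_of_nonneg_left h5 hE0
          _ = _ := by ring
      have h4 := pow_sum k hk R
      have h5 : |((2 * k - 1)‼ : ℝ) * θ ^ k * ∑ r ∈ range R, (k : ℝ) * (r : ℝ) ^ (k - 1) -
          ((2 * k - 1)‼ : ℝ) * θ ^ k * (R : ℝ) ^ k| ≤
          ((2 * k - 1)‼ : ℝ) * k * ((R : ℝ) + 1) ^ (k - 1) := by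
        rw [← mul_sub, abs_mul, abs_of_nonneg (by positivity : 0 ≤ ((2 * k - 1)‼ : ℝ) * θ ^ k)]
        have h6 : ((2 * k - 1)‼ : ℝ) * θ ^ k ≤ ((2 * k - 1)‼ : ℝ) :=
          mul_le_of_le_one_right (Nat.cast_nonneg _) (pow_le_one₀ hθ0 hθ1)
        have h7 : (k : ℝ) * (R : ℝ) ^ (k - 1) ≤ k * ((R : ℝ) + 1) ^ (k - 1) :=
          mul_le_mul_of_nonneg_left (pow_le_pow_left₀ hR (by linarith) _) (Nat.cast_nonneg _)
        calc _ ≤ ((2 * k - 1)‼ : ℝ) * (k * ((R : ℝ) + 1) ^ (k - 1)) :=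
              mul_le_mul h6 (h4.trans h7) (abs_nonneg _) (Nat.cast_nonneg _)
          _ = _ := by ring
      have h6 := abs_add_le (gm θ R (2 * k) - ((2 * k - 1)‼ : ℝ) * θ ^ k *
          ∑ r ∈ range R, (k : ℝ) * (r : ℝ) ^ (k - 1))
        (((2 * k - 1)‼ : ℝ) * θ ^ k * ∑ r ∈ range R, (k : ℝ) * (r : ℝ) ^ (k - 1) -
          ((2 * k - 1)‼ : ℝ) * θ ^ k * (R : ℝ) ^ k)
      rw [sub_add_sub_cancel] at h6
      refine h6.trans ((add_le_add h3 h5).trans (le_of_eq ?_))
      ring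

end Pool.Agent.T6.H9.PA
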